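import Pool.Agent.K7.H37.UK.Stm

/-!
# Project UK, job FIB: fibrewise shears are isotopic to the identity
-/

set_option autoImplicit false

open Filter Topology

namespace Pool.Agent.K7.H70.UK

open Pool.Agent.K7.H37.UK

theorem expand {e : ℂ × ℝ → ℝ} (hm : ∀ w : ℂ, Monotone (fun h : ℝ => e (w, h))) (w : ℂ)
    (h h' : ℝ) : |h - h'| ≤ |(h + e (w, h)) - (h' + e (w, h'))| := by
  rcases le_total h h' with hh | hh
  · have h1 : e (w, h) ≤ e (w, h') := hm w hh
    rw [abs_of_nonpos (by linarith), abs_of_nonpos (by linarith)]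
    linarith
  · have h1 : e (w, h') ≤ e (w, h) := hm w hh
    rw [abs_of_nonneg (by linarith), abs_of_nonneg (by linarith)]
    linarith

theorem surj {e : ℂ × ℝ → ℝ} (hc : Continuous e)
    (hm : ∀ w : ℂ, Monotone (fun h : ℝ => e (w, h))) (w : ℂ) (y : ℝ) :
    ∃ h : ℝ, h + e (w, h) = y := by
  have hcont : Continuous (fun h : ℝ => h + e (w, h)) := by fun_prop
  have h1 : Tendsto (fun h : ℝ => h + e (w, h)) atTop atTop := by
    refine tendsto_atTop_mono' _ ?_ (tendsto_atTop_add_const_right atTop (e (w, 0)) tendsto_id)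
    filter_upwards [eventually_ge_atTop 0] with h hh
    have h2 : e (w, 0) ≤ e (w, h) := hm w hh
    show h + e (w, 0) ≤ h + e (w, h)
    linarith
  have h2 : Tendsto (fun h : ℝ => h + e (w, h)) atBot atBot := by
    refine tendsto_atBot_mono' _ ?_ (tendsto_atBot_add_const_right atBot (e (w, 0)) tendsto_id)
    filter_upwards [eventually_le_atBot 0] with h hh
    have h2 : e (w, h) ≤ e (w, 0) := hm w hh
    show h + e (w, h) ≤ h + e (w, 0)
    linarith
  exact hcont.surjective h1 h2 y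

theorem exists_homeo {e : ℂ × ℝ → ℝ} (hc : Continuous e)
    (hm : ∀ w : ℂ, Monotone (fun h : ℝ => e (w, h))) :
    ∃ G : (ℂ × ℝ) ≃ₜ (ℂ × ℝ), ∀ p, G p = (p.1, p.2 + e p) := by
  choose k hk using surj hc hm
  have hinj : ∀ (w : ℂ) (h h' : ℝ), h + e (w, h) = h' + e (w, h') → h = h' := by
    intro w h h' hh
    have h1 := expand hm w h h'
    rw [hh, sub_self, abs_zero] at h1
    exact sub_eq_zero.1 (abs_nonpos_iff.1 h1)
  have hkc : Continuous (fun p : ℂ × ℝ => k p.1 p.2) := by
    rw [continuous_iff_continuousAt]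
    rintro ⟨w0, y0⟩
    have hF : Tendsto (fun p : ℂ × ℝ => |p.2 - (k w0 y0 + e (p.1, k w0 y0))|) (𝓝 (w0, y0))
        (𝓝 0) := by
      have hcF : Continuous (fun p : ℂ × ℝ => |p.2 - (k w0 y0 + e (p.1, k w0 y0))|) := by
        fun_prop
      have h1 := hcF.tendsto (w0, y0)
      have h2 : |(w0, y0).2 - (k w0 y0 + e ((w0, y0).1, k w0 y0))| = 0 := by
        show |y0 - (k w0 y0 + e (w0, k w0 y0))| = 0
        rw [hk, sub_self, abs_zero]
      rw [h2] at h1
      exact h1
    refine tendsto_iff_dist_tendsto_zero.2 (squeeze_zero (fun _ => dist_nonneg) (fun p => ?_) hF)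
    rw [Real.dist_eq]
    have h1 := expand hm p.1 (k p.1 p.2) (k w0 y0)
    rw [hk] at h1
    exact h1
  refine ⟨{ toFun := fun p => (p.1, p.2 + e p)
            invFun := fun p => (p.1, k p.1 p.2)
            left_inv := fun p => Prod.ext rfl (hinj p.1 _ _ (hk p.1 _))
            right_inv := fun p => Prod.ext rfl (hk p.1 p.2)
            continuous_toFun := by fun_prop
            continuous_invFun := continuous_fst.prodMk hkc }, fun p => rfl⟩

/-- **FIB** -/
theorem fib : StFib := by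
  intro e hc hm
  have h1 : ∀ t : unitInterval, ∃ G : (ℂ × ℝ) ≃ₜ (ℂ × ℝ), ∀ p, G p = (p.1, p.2 + (t : ℝ) * e p) :=
    fun t => exists_homeo (e := fun p => (t : ℝ) * e p) (by fun_prop) fun w h h' hh =>
      mul_le_mul_of_nonneg_left (hm w hh) t.2.1
  choose H hH using h1
  refine ⟨H 1, ⟨H, ?_, fun x => ?_, fun x => rfl⟩, fun p => ?_⟩
  · have h2 : (fun p : unitInterval × (ℂ × ℝ) => H p.1 p.2) =
        fun p => (p.2.1, p.2.2 + (p.1 : ℝ) * e p.2) := funext fun p => hH p.1 p.2
    rw [h2]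
    fun_prop
  · rw [hH]
    simp
  · rw [hH]
    simp

end Pool.Agent.K7.H70.UK
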